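import Pool.Agent.H82.LB.Targets

/-! BR1: four transversal entries of a broad array (board `lmb_modules`). -/

set_option autoImplicit false

namespace Pool.Agent.H67.LB

open Pool.Agent.H83.G
open Pool.Agent.H22.G4 (nv Ind)
open Pool.Agent.H82.LB
open scoped RealInnerProductSpace

/-- the rotation by a right angle -/
private noncomputable def rot (v : Pool.Agent.H83.G.E 2) : Pool.Agent.H83.G.E 2 := !₂[-v 1, v 0]

private theorem nsq (v : Pool.Agent.H83.G.E 2) : ‖v‖ ^ 2 = v 0 ^ 2 + v 1 ^ 2 := by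
  rw [EuclideanSpace.norm_sq_eq]
  simp [Fin.sum_univ_two]

private theorem inn (u v : Pool.Agent.H83.G.E 2) : ⟪u, v⟫ = u 0 * v 0 + u 1 * v 1 := by
  rw [PiLp.inner_apply]
  simp [Fin.sum_univ_two]
  ring

private theorem inn_rot (u v : Pool.Agent.H83.G.E 2) : ⟪u, rot v⟫ = v 0 * u 1 - v 1 * u 0 := by
  rw [inn]
  simp [rot]
  ring

private theorem norm_rot (v : Pool.Agent.H83.G.E 2) : ‖rot v‖ = ‖v‖ := by
  have h : ‖rot v‖ ^ 2 = ‖v‖ ^ 2 := by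
    rw [nsq, nsq]
    simp [rot]
    ring
  exact (sq_eq_sq₀ (norm_nonneg _) (norm_nonneg _)).1 h

private theorem ph_smul (z V : Z 2) (t : ℝ) : ph z (t • V) = t * ph z V := by
  unfold ph
  simp only [Prod.smul_fst, Prod.smul_snd, inner_smul_right, smul_eq_mul]
  ring

private theorem brm1 {ι : Type} {K h : ℝ} {n : ℕ} {I : Finset ι} {c : ι → Pool.Agent.H83.G.E 2}
    {u : ι → ℂ} (hn : 1 ≤ n) (hB : Brm K n h I c u) (V : Z 2) (hV : V ≠ 0) :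
    ∃ k ∈ I, h ≤ ‖u k‖ ∧ ∀ η, ph (nv η) V = 0 → K⁻¹ ≤ ‖c k - η‖ := by
  obtain ⟨k, hk, h1, h2⟩ := hB (fun _ => ‖V‖⁻¹ • V) (fun _ => by
    rw [norm_smul, norm_inv, norm_norm]
    exact inv_mul_cancel₀ (norm_ne_zero_iff.2 hV))
  exact ⟨k, hk, h1, fun η hη => h2 ⟨0, by omega⟩ η (by rw [ph_smul, hη, mul_zero])⟩

private theorem ph_nv (η : Pool.Agent.H83.G.E 2) (V : Z 2) :
    ph (nv η) V = V.1 + ⟪η, V.2.1⟫ + ‖η‖ ^ 2 * V.2.2 := by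
  unfold ph nv
  simp

/-- distance from a circle -/
private theorem circ {K α : ℝ} {β p w4 : Pool.Agent.H83.G.E 2} (hK : 0 < K) (hα : α ≠ 0)
    (hp : α * ‖p‖ ^ 2 + ⟪β, p⟫ = 0) (hpK : K⁻¹ ≤ ‖p‖)
    (h : ∀ w : Pool.Agent.H83.G.E 2, α * ‖w‖ ^ 2 + ⟪β, w⟫ = 0 → K⁻¹ ≤ ‖w4 - w‖) :
    |α| * (K⁻¹ * (K⁻¹ / 2)) ≤ |α * ‖w4‖ ^ 2 + ⟪β, w4⟫| := by
  have hKi : 0 < K⁻¹ := inv_pos.2 hK
  obtain ⟨o, ho⟩ : ∃ o : Pool.Agent.H83.G.E 2, o = (-(2 * α)⁻¹) • β := ⟨_, rfl⟩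
  have key : ∀ w : Pool.Agent.H83.G.E 2,
      α * ‖w‖ ^ 2 + ⟪β, w⟫ = α * (‖w - o‖ ^ 2 - ‖o‖ ^ 2) := by
    intro w
    rw [norm_sub_sq_real]
    have h1 : ⟪w, o⟫ = -(2 * α)⁻¹ * ⟪β, w⟫ := by
      rw [ho, inner_smul_right, real_inner_comm]
    rw [h1]
    field_simp
    ring
  have hp1 : ‖p - o‖ = ‖o‖ := by
    rw [key] at hp
    have h1 : ‖p - o‖ ^ 2 - ‖o‖ ^ 2 = 0 := by
      rcases mul_eq_zero.1 hp with h2 | h2
      · exact absurd h2 hα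
      · exact h2
    exact (sq_eq_sq₀ (norm_nonneg _) (norm_nonneg _)).1 (by linarith)
  have hr0 : K⁻¹ / 2 ≤ ‖o‖ := by
    have h1 : ‖p‖ ≤ ‖p - o‖ + ‖o‖ := by
      have := norm_add_le (p - o) o
      rwa [sub_add_cancel] at this
    linarith
  have ho0 : 0 ≤ ‖o‖ := norm_nonneg _
  rw [key w4, abs_mul]
  apply mul_le_mul_of_nonneg_left _ (abs_nonneg _)
  by_cases hw : w4 = o
  · have h1 := h 0 (by simp)
    rw [sub_zero, hw] at h1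
    rw [hw, sub_self, norm_zero]
    have h2 : |(0 : ℝ) ^ 2 - ‖o‖ ^ 2| = ‖o‖ * ‖o‖ := by
      rw [show (0 : ℝ) ^ 2 - ‖o‖ ^ 2 = -(‖o‖ * ‖o‖) by ring, abs_neg,
        abs_of_nonneg (mul_nonneg ho0 ho0)]
    rw [h2]
    exact mul_le_mul h1 hr0 (by positivity) ho0
  · have hR : 0 < ‖w4 - o‖ := norm_pos_iff.2 (sub_ne_zero.2 hw)
    have h1 := h (o + (‖o‖ / ‖w4 - o‖) • (w4 - o)) (by
      rw [key, add_sub_cancel_left, norm_smul, Real.norm_eq_abs, abs_of_nonneg (by positivity),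
        div_mul_cancel₀ _ hR.ne']
      ring)
    have h2 : w4 - (o + (‖o‖ / ‖w4 - o‖) • (w4 - o)) = (1 - ‖o‖ / ‖w4 - o‖) • (w4 - o) := by
      rw [sub_smul, one_smul]
      abel
    have h3 : |1 - ‖o‖ / ‖w4 - o‖| * ‖w4 - o‖ = |‖w4 - o‖ - ‖o‖| := by
      rw [← abs_of_pos hR, ← abs_mul, abs_of_pos hR]
      congr 1
      field_simp
    rw [h2, norm_smul, Real.norm_eq_abs, h3] at h1
    have h4 : |‖w4 - o‖ ^ 2 - ‖o‖ ^ 2| = |‖w4 - o‖ - ‖o‖| * (‖w4 - o‖ + ‖o‖) := by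
      rw [show ‖w4 - o‖ ^ 2 - ‖o‖ ^ 2 = (‖w4 - o‖ - ‖o‖) * (‖w4 - o‖ + ‖o‖) by ring, abs_mul,
        abs_of_nonneg (show 0 ≤ ‖w4 - o‖ + ‖o‖ by positivity)]
    rw [h4]
    exact mul_le_mul h1 (by linarith) (by positivity) (abs_nonneg _)

private theorem term_le {A b c d e A' B C : ℝ} (hA : |A| ≤ A') (hb : |b| ≤ B) (hd : |d| ≤ B)
    (hc : |c| ≤ C) (he : |e| ≤ C) : |A * (b * c - d * e)| ≤ A' * (2 * (B * C)) := by
  have hA0 : 0 ≤ A' := (abs_nonneg _).trans hA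
  have hB0 : 0 ≤ B := (abs_nonneg _).trans hb
  have h1 : |b * c| ≤ B * C := by
    rw [abs_mul]
    exact mul_le_mul hb hc (abs_nonneg _) hB0
  have h2 : |d * e| ≤ B * C := by
    rw [abs_mul]
    exact mul_le_mul hd he (abs_nonneg _) hB0
  rw [abs_mul]
  refine mul_le_mul hA ?_ (abs_nonneg _) hA0
  have := abs_sub (b * c) (d * e)
  linarith

private theorem three_le {x y z a b c : ℝ} (hx : |x| ≤ a) (hy : |y| ≤ b) (hz : |z| ≤ c) :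
    |x - y + z| ≤ a + b + c := by
  rw [abs_le] at hx hy hz ⊢
  constructor <;> linarith [hx.1, hx.2, hy.1, hy.2, hz.1, hz.2]

/-- Cramer -/
private theorem cramer {p0 p1 q0 q1 w0 w1 a2 a3 a4 T0 T1 T2 N F : ℝ} (hN : 0 ≤ N)
    (hT0 : T0 = a2 * p0 + a3 * q0 + a4 * w0) (hT1 : T1 = a2 * p1 + a3 * q1 + a4 * w1)
    (hT2 : T2 = a2 * (p0 ^ 2 + p1 ^ 2) + a3 * (q0 ^ 2 + q1 ^ 2) + a4 * (w0 ^ 2 + w1 ^ 2))
    (hF : F = (w0 ^ 2 + w1 ^ 2) * (p0 * q1 - p1 * q0) - (q0 ^ 2 + q1 ^ 2) * (p0 * w1 - p1 * w0) +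
      (p0 ^ 2 + p1 ^ 2) * (q0 * w1 - q1 * w0))
    (hp : p0 ^ 2 + p1 ^ 2 ≤ 576) (hq : q0 ^ 2 + q1 ^ 2 ≤ 576) (hw : w0 ^ 2 + w1 ^ 2 ≤ 576)
    (b0 : |T0| ≤ 13 * N) (b1 : |T1| ≤ 13 * N) (b2 : |T2| ≤ 169 * N) :
    |a2| * |F| ≤ 1000000 * N ∧ |a3| * |F| ≤ 1000000 * N ∧ |a4| * |F| ≤ 1000000 * N := by
  have sm : ∀ x y : ℝ, x ^ 2 + y ^ 2 ≤ 576 → |x| ≤ 24 ∧ |y| ≤ 24 ∧ |x ^ 2 + y ^ 2| ≤ 576 := by
    intro x y h
    refine ⟨?_, ?_, ?_⟩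
    · apply abs_le_of_sq_le_sq _ (by norm_num)
      nlinarith [sq_nonneg y]
    · apply abs_le_of_sq_le_sq _ (by norm_num)
      nlinarith [sq_nonneg x]
    · rw [abs_of_nonneg (by positivity)]
      exact h
  obtain ⟨p0', p1', P'⟩ := sm p0 p1 hp
  obtain ⟨q0', q1', Q'⟩ := sm q0 q1 hq
  obtain ⟨w0', w1', W'⟩ := sm w0 w1 hw
  refine ⟨?_, ?_, ?_⟩
  · rw [← abs_mul]
    have h1 : a2 * F = (w0 ^ 2 + w1 ^ 2) * (T0 * q1 - T1 * q0) -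
        (q0 ^ 2 + q1 ^ 2) * (T0 * w1 - T1 * w0) + T2 * (q0 * w1 - q1 * w0) := by
      rw [hF, hT0, hT1, hT2]
      ring
    rw [h1]
    refine (three_le (term_le W' b0 b1 q1' q0') (term_le Q' b0 b1 w1' w0')
      (term_le b2 q0' q1' w1' w0')).trans ?_
    linarith
  · rw [← abs_mul]
    have h1 : a3 * F = (w0 ^ 2 + w1 ^ 2) * (T1 * p0 - T0 * p1) -
        T2 * (p0 * w1 - p1 * w0) + (p0 ^ 2 + p1 ^ 2) * (T0 * w1 - T1 * w0) := by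
      rw [hF, hT0, hT1, hT2]
      ring
    rw [h1]
    refine (three_le (term_le W' b1 b0 p0' p1') (term_le b2 p0' p1' w1' w0')
      (term_le P' b0 b1 w1' w0')).trans ?_
    linarith
  · rw [← abs_mul]
    have h1 : a4 * F = T2 * (p0 * q1 - p1 * q0) -
        (q0 ^ 2 + q1 ^ 2) * (T1 * p0 - T0 * p1) + (p0 ^ 2 + p1 ^ 2) * (T1 * q0 - T0 * q1) := by
      rw [hF, hT0, hT1, hT2]
      ring
    rw [h1]
    refine (three_le (term_le b2 p0' p1' q1' q0') (term_le Q' b1 b0 p0' p1')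
      (term_le P' b1 b0 q0' q1')).trans ?_
    linarith

private theorem coord_le (v : Pool.Agent.H83.G.E 2) (i : Fin 2) : |v i| ≤ ‖v‖ := by
  have h1 := nsq v
  apply abs_le_of_sq_le_sq _ (norm_nonneg _)
  fin_cases i
  · simp only [Fin.zero_eta, Fin.mk_one]
    rw [h1]
    nlinarith [sq_nonneg (v 1)]
  · simp only [Fin.zero_eta, Fin.mk_one]
    rw [h1]
    nlinarith [sq_nonneg (v 0)]

/-- independence from the determinant -/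
private theorem indep {K F : ℝ} (hK : 1 ≤ K) (η : Fin 4 → Pool.Agent.H83.G.E 2)
    (hη : ∀ i, ‖η i‖ ≤ 12)
    (hF : F = ‖η 3 - η 0‖ ^ 2 * ((η 1 - η 0) 0 * (η 2 - η 0) 1 - (η 1 - η 0) 1 * (η 2 - η 0) 0) -
      ‖η 2 - η 0‖ ^ 2 * ((η 1 - η 0) 0 * (η 3 - η 0) 1 - (η 1 - η 0) 1 * (η 3 - η 0) 0) +
      ‖η 1 - η 0‖ ^ 2 * ((η 2 - η 0) 0 * (η 3 - η 0) 1 - (η 2 - η 0) 1 * (η 3 - η 0) 0))
    (hFK : (K ^ 4)⁻¹ / 2 ≤ |F|) : Ind (20000000 * K ^ 4)⁻¹ η := by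
  intro a
  have hK4 : 1 ≤ K ^ 4 := one_le_pow₀ hK
  have hK40 : 0 < K ^ 4 := by linarith
  obtain ⟨s, hs⟩ : ∃ s : Z 2, s = ∑ i, a i • nv (η i) := ⟨_, rfl⟩
  rw [← hs]
  obtain ⟨N, hN⟩ : ∃ N : ℝ, N = ‖s‖ := ⟨_, rfl⟩
  have hN0 : 0 ≤ N := by rw [hN]; exact norm_nonneg _
  have s0 : s.1 = a 0 + a 1 + a 2 + a 3 := by
    rw [hs, Fin.sum_univ_four]
    simp [nv]
  have s1 : s.2.1 = a 0 • η 0 + a 1 • η 1 + a 2 • η 2 + a 3 • η 3 := by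
    rw [hs, Fin.sum_univ_four]
    simp [nv]
  have s2 : s.2.2 = a 0 * ‖η 0‖ ^ 2 + a 1 * ‖η 1‖ ^ 2 + a 2 * ‖η 2‖ ^ 2 + a 3 * ‖η 3‖ ^ 2 := by
    rw [hs, Fin.sum_univ_four]
    simp [nv]
  have n0 : |s.1| ≤ N := by
    rw [hN, Prod.norm_def]
    exact le_max_left _ _
  have n1 : ‖s.2.1‖ ≤ N := by
    rw [hN, Prod.norm_def, Prod.norm_def]
    exact (le_max_left _ _).trans (le_max_right _ _)
  have n2 : |s.2.2| ≤ N := by
    rw [hN, Prod.norm_def, Prod.norm_def]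
    exact (le_max_right _ _).trans (le_max_right _ _)
  obtain ⟨T, hT⟩ : ∃ T : Pool.Agent.H83.G.E 2, T = s.2.1 - s.1 • η 0 := ⟨_, rfl⟩
  have hTn : ‖T‖ ≤ 13 * N := by
    rw [hT]
    refine (norm_sub_le _ _).trans ?_
    rw [norm_smul, Real.norm_eq_abs]
    have := mul_le_mul n0 (hη 0) (norm_nonneg _) hN0
    linarith
  have hT' : T = a 1 • (η 1 - η 0) + a 2 • (η 2 - η 0) + a 3 • (η 3 - η 0) := by
    rw [hT, s1, s0]
    module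
  obtain ⟨T2, hT2⟩ : ∃ T2 : ℝ, T2 = s.2.2 - 2 * ⟪s.2.1, η 0⟫ + s.1 * ‖η 0‖ ^ 2 := ⟨_, rfl⟩
  have hT2n : |T2| ≤ 169 * N := by
    have h1 : |⟪s.2.1, η 0⟫| ≤ 12 * N := by
      refine (abs_real_inner_le_norm _ _).trans ?_
      have := mul_le_mul n1 (hη 0) (norm_nonneg _) hN0
      linarith
    have h2 : |s.1 * ‖η 0‖ ^ 2| ≤ 144 * N := by
      rw [abs_mul, abs_of_nonneg (show 0 ≤ ‖η 0‖ ^ 2 by positivity)]
      have h3 : ‖η 0‖ ^ 2 ≤ 12 ^ 2 := pow_le_pow_left₀ (norm_nonneg _) (hη 0) 2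
      have := mul_le_mul n0 h3 (by positivity) hN0
      linarith
    rw [hT2]
    rw [abs_le] at h1 h2 n2 ⊢
    constructor <;> linarith [h1.1, h1.2, h2.1, h2.2, n2.1, n2.2]
  have hT2' : T2 = a 1 * ‖η 1 - η 0‖ ^ 2 + a 2 * ‖η 2 - η 0‖ ^ 2 + a 3 * ‖η 3 - η 0‖ ^ 2 := by
    rw [hT2, s1, s2, s0]
    simp only [inner_add_left, inner_smul_left, norm_sub_sq_real]
    simp only [real_inner_self_eq_norm_sq, RCLike.conj_to_real]
    ring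
  have hsq : ∀ i, ‖η i - η 0‖ ^ 2 ≤ 576 := by
    intro i
    have h1 : ‖η i - η 0‖ ≤ 24 := (norm_sub_le _ _).trans (by linarith [hη i, hη 0])
    have := pow_le_pow_left₀ (norm_nonneg _) h1 2
    linarith
  have hc := cramer (p0 := (η 1 - η 0) 0) (p1 := (η 1 - η 0) 1) (q0 := (η 2 - η 0) 0)
    (q1 := (η 2 - η 0) 1) (w0 := (η 3 - η 0) 0) (w1 := (η 3 - η 0) 1) (a2 := a 1) (a3 := a 2)
    (a4 := a 3) (T0 := T 0) (T1 := T 1) (T2 := T2) (N := N) (F := F) hN0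
    (by rw [hT']; simp) (by rw [hT']; simp) (by rw [hT2', nsq, nsq, nsq])
    (by rw [hF, nsq, nsq, nsq]) (by rw [← nsq]; exact hsq 1) (by rw [← nsq]; exact hsq 2)
    (by rw [← nsq]; exact hsq 3) ((coord_le T 0).trans hTn) ((coord_le T 1).trans hTn) hT2n
  have hfin : ∀ x : ℝ, |x| * |F| ≤ 1000000 * N → |x| ≤ 2000000 * K ^ 4 * N := by
    intro x hx
    have h1 : |x| * ((K ^ 4)⁻¹ / 2) ≤ |x| * |F| := mul_le_mul_of_nonneg_left hFK (abs_nonneg _)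
    have h2 : |x| = (|x| * ((K ^ 4)⁻¹ / 2)) * (2 * K ^ 4) := by
      field_simp
    rw [h2]
    have h3 := mul_le_mul_of_nonneg_right (h1.trans hx) (show 0 ≤ 2 * K ^ 4 by positivity)
    linarith
  have f1 := hfin _ hc.1
  have f2 := hfin _ hc.2.1
  have f3 := hfin _ hc.2.2
  have f0 : |a 0| ≤ N + |a 1| + |a 2| + |a 3| := by
    have h1 : a 0 = s.1 - a 1 - a 2 - a 3 := by linarith
    rw [h1]
    have h2 := abs_le.1 n0
    have h3 := abs_le.1 (le_refl |a 1|)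
    have h4 := abs_le.1 (le_refl |a 2|)
    have h5 := abs_le.1 (le_refl |a 3|)
    rw [abs_le]
    constructor <;> linarith [h2.1, h2.2, h3.1, h3.2, h4.1, h4.2, h5.1, h5.2]
  rw [Fin.sum_univ_four, ← hN, inv_mul_le_iff₀ (by positivity)]
  have h6 : N ≤ K ^ 4 * N := le_mul_of_one_le_left hN0 hK4
  linarith

theorem pf_BR1 : T_BR1 := by
  refine ⟨20000000, by norm_num, ?_⟩
  intro ι K h n I c u hK hn hc hB
  have hK0 : 0 < K := by linarith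
  have hKi : 0 < K⁻¹ := inv_pos.2 hK0
  -- the first entry
  obtain ⟨k0, hk0, hu0, -⟩ := brm1 hn hB ((1 : ℝ), (0 : Pool.Agent.H83.G.E 2), (0 : ℝ)) (by
    intro h
    have := congrArg Prod.fst h
    simp at this)
  -- the second entry
  obtain ⟨k1, hk1, hu1, hd1⟩ := brm1 hn hB (‖c k0‖ ^ 2, (-2 : ℝ) • c k0, (1 : ℝ)) (by
    intro h
    have := congrArg (fun z : Z 2 => z.2.2) h
    simp at this)
  have hp : K⁻¹ ≤ ‖c k1 - c k0‖ := by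
    apply hd1
    rw [ph_nv]
    simp only [inner_smul_right, real_inner_self_eq_norm_sq]
    ring
  obtain ⟨p, hpd⟩ : ∃ p : Pool.Agent.H83.G.E 2, p = c k1 - c k0 := ⟨_, rfl⟩
  rw [← hpd] at hp
  have hp0 : 0 < ‖p‖ := by linarith
  -- the third entry
  obtain ⟨k2, hk2, hu2, hd2⟩ := brm1 hn hB (-⟪c k0, rot p⟫, rot p, (0 : ℝ)) (by
    intro h
    have h1 := congrArg (fun z : Z 2 => ‖z.2.1‖) h
    simp only [norm_rot, Prod.snd_zero, Prod.fst_zero, norm_zero] at h1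
    linarith)
  obtain ⟨q, hqd⟩ : ∃ q : Pool.Agent.H83.G.E 2, q = c k2 - c k0 := ⟨_, rfl⟩
  obtain ⟨α, hα⟩ : ∃ α : ℝ, α = p 0 * q 1 - p 1 * q 0 := ⟨_, rfl⟩
  have hαi : ⟪q, rot p⟫ = α := by rw [inn_rot, hα]
  have hαK : K⁻¹ * K⁻¹ ≤ |α| := by
    have h1 := hd2 (c k2 - (α / ‖p‖ ^ 2) • rot p) (by
      rw [ph_nv]
      simp only [inner_sub_left, inner_smul_left, mul_zero, add_zero, real_inner_self_eq_norm_sq,
        norm_rot, RCLike.conj_to_real]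
      have h2 : ⟪c k2, rot p⟫ - ⟪c k0, rot p⟫ = α := by
        rw [← inner_sub_left, ← hqd]
        exact hαi
      rw [div_mul_cancel₀ _ (by positivity)]
      linarith)
    rw [sub_sub_cancel, norm_smul, norm_rot, Real.norm_eq_abs, abs_div,
      abs_of_pos (show 0 < ‖p‖ ^ 2 by positivity)] at h1
    have h2 : |α| / ‖p‖ ^ 2 * ‖p‖ = |α| / ‖p‖ := by
      field_simp
    rw [h2, le_div_iff₀ hp0] at h1
    exact (mul_le_mul_of_nonneg_left hp hKi.le).trans h1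
  have hα0 : α ≠ 0 := by
    intro h0
    rw [h0, abs_zero] at hαK
    have : 0 < K⁻¹ * K⁻¹ := by positivity
    linarith
  -- the fourth entry
  obtain ⟨β, hβ⟩ : ∃ β : Pool.Agent.H83.G.E 2, β = ‖p‖ ^ 2 • rot q - ‖q‖ ^ 2 • rot p := ⟨_, rfl⟩
  obtain ⟨k3, hk3, hu3, hd3⟩ := brm1 hn hB
    (α * ‖c k0‖ ^ 2 - ⟪β, c k0⟫, β - (2 * α) • c k0, α) (by
    intro h
    have h1 := congrArg (fun z : Z 2 => z.2.2) h
    simp only [Prod.snd_zero] at h1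
    exact hα0 h1)
  have hβi : ∀ w : Pool.Agent.H83.G.E 2, ⟪β, w⟫ =
      ‖p‖ ^ 2 * (q 0 * w 1 - q 1 * w 0) - ‖q‖ ^ 2 * (p 0 * w 1 - p 1 * w 0) := by
    intro w
    rw [hβ, inner_sub_left, inner_smul_left, inner_smul_left, real_inner_comm, inn_rot,
      real_inner_comm, inn_rot]
    simp
  have hcir := circ (K := K) (α := α) (β := β) (p := p) (w4 := c k3 - c k0) hK0 hα0 (by
      rw [hβi, hα, nsq, nsq]
      ring) hp (by
      intro w hw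
      have h1 := hd3 (c k0 + w) (by
        rw [ph_nv]
        simp only [inner_add_left, inner_sub_right, inner_smul_right, norm_add_sq_real]
        rw [real_inner_comm (c k0) β, real_inner_comm w β, real_inner_self_eq_norm_sq,
          real_inner_comm (c k0) w] at *
        linarith)
      rw [← sub_sub] at h1
      exact h1)
  have hFK : (K ^ 4)⁻¹ / 2 ≤ |α * ‖c k3 - c k0‖ ^ 2 + ⟪β, c k3 - c k0⟫| := by
    refine le_trans ?_ hcir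
    have h1 : (K⁻¹ * K⁻¹) * (K⁻¹ * (K⁻¹ / 2)) ≤ |α| * (K⁻¹ * (K⁻¹ / 2)) :=
      mul_le_mul_of_nonneg_right hαK (by positivity)
    have h2 : (K⁻¹ * K⁻¹) * (K⁻¹ * (K⁻¹ / 2)) = (K ^ 4)⁻¹ / 2 := by
      rw [← inv_pow]
      ring
    linarith
  refine ⟨![k0, k1, k2, k3], ?_, ?_⟩
  · intro i
    fin_cases i
    · exact ⟨hk0, hu0⟩
    · exact ⟨hk1, hu1⟩
    · exact ⟨hk2, hu2⟩
    · exact ⟨hk3, hu3⟩
  · refine indep hK _ (fun i => hc _ ?_) rfl ?_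
    · fin_cases i
      · exact hk0
      · exact hk1
      · exact hk2
      · exact hk3
    · simp only [Matrix.cons_val_zero, Matrix.cons_val_one, Matrix.cons_val]
      rw [← hpd, ← hqd]
      rw [hβi, hα] at hFK
      have e1 : ∀ x y z w : ℝ, x * y + (z - w) = y * x - w + z := by
        intro x y z w
        ring
      rw [e1] at hFK
      exact hFK

end Pool.Agent.H67.LB
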