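import Pool.Agent.H82.LB.Targets2
import Pool.Agent.H82.G4.REC4

/-! Row T43 of `lmb_modules`. -/

set_option autoImplicit false

namespace Pool.Agent.H67.LB

open MeasureTheory Set
open Pool.Agent.H83.G Pool.Agent.H82.LB
open Pool.Agent.H82.G4 (T_MAIN4 T_TEN42)
open Pool.Agent.H22.G4 (T_BASx Bdx)
open scoped ENNReal NNReal RealInnerProductSpace

theorem pf_T43 (hM : T_MAIN4) (hT : T_TEN42) (hB : T_BASx) : T_T43 := by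
  intro L ε hL hε
  obtain ⟨τ, hτ0, hτ1, hτ2⟩ : ∃ τ : ℝ, 0 < τ ∧ τ ≤ ε / 4 ∧ τ ≤ 1 / 10 :=
    ⟨min (ε / 4) (1 / 10), lt_min (by positivity) (by norm_num), min_le_left _ _,
      min_le_right _ _⟩
  obtain ⟨C₁, hC₁, h1⟩ := hM 2 L (4 / 3 + τ) (ε / 4) (by norm_num) (by linarith)
    (by push_cast; linarith) (by push_cast; linarith)
    (hT L (4 / 3 + τ) (by linarith) (by linarith)) (by omega) (by positivity)
  obtain ⟨C₂, hC₂, -, h2⟩ := hB 2 L (4 / 3) (by norm_num) (by norm_num) (by norm_num)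
  refine ⟨C₁ + C₂, by positivity, ?_⟩
  intro R A H G X hR hA hH hG hX hz
  have hR0 : 0 < R := by linarith
  have hI : 0 ≤ ∫ ζ, ‖G ζ‖ ^ 2 := integral_nonneg fun ζ => by positivity
  have hx : (0 : ℝ) < 4 / 3 + τ := by linarith
  have hb : (X.card : ℝ) * H ^ (2 + (4 / 3 + τ)) ≤
      C₁ * R ^ (ε / 4) * A ^ (4 / 3 + τ) * R ^ (((2 : ℕ) : ℝ) * (4 / 3 + τ) / 2 - 1) *
        ∫ ζ, ‖G ζ‖ ^ 2 :=
    Pool.Agent.H82.G4.REC4.bdx_of_bds hx hR0.le (by positivity) (h1 R hR) A H G X hA hH hG hX hz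
  rcases le_total H A with hHA | hAH
  · have h3 := h2 (1 / 4) R A H G X (by norm_num) (by norm_num) hR hA hH hHA hG hX hz
    have h4 : (1 : ℝ) ≤ R ^ ε := Real.one_le_rpow hR hε.le
    have h5 : (1 : ℝ) ≤ R ^ (1 / 3 : ℝ) := Real.one_le_rpow hR (by norm_num)
    have h6 : (2 : ℝ) + 4 / 3 = 10 / 3 := by norm_num
    rw [h6] at h3
    calc (X.card : ℝ) * H ^ (10 / 3 : ℝ) ≤ C₂ * A ^ (4 / 3 : ℝ) * ∫ ζ, ‖G ζ‖ ^ 2 := h3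
      _ = C₂ * 1 * A ^ (4 / 3 : ℝ) * 1 * ∫ ζ, ‖G ζ‖ ^ 2 := by ring
      _ ≤ (C₁ + C₂) * R ^ ε * A ^ (4 / 3 : ℝ) * R ^ (1 / 3 : ℝ) * ∫ ζ, ‖G ζ‖ ^ 2 := by
        have : C₂ ≤ C₁ + C₂ := by linarith
        gcongr
  · have h5 : H ^ (10 / 3 : ℝ) = H ^ (2 + (4 / 3 + τ)) * H ^ (-τ) := by
      rw [← Real.rpow_add hH]
      congr 1
      ring
    have h6 : H ^ (-τ) ≤ A ^ (-τ) := Real.rpow_le_rpow_of_nonpos hA hAH (by linarith)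
    have h7 : A ^ (4 / 3 + τ) * A ^ (-τ) = A ^ (4 / 3 : ℝ) := by
      rw [← Real.rpow_add hA]
      congr 1
      ring
    have h8 : R ^ (ε / 4) * R ^ (((2 : ℕ) : ℝ) * (4 / 3 + τ) / 2 - 1) ≤
        R ^ ε * R ^ (1 / 3 : ℝ) := by
      rw [← Real.rpow_add hR0, ← Real.rpow_add hR0]
      refine Real.rpow_le_rpow_of_exponent_le hR ?_
      push_cast
      linarith
    have h9 : 0 < A ^ (4 / 3 : ℝ) := by positivity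
    calc (X.card : ℝ) * H ^ (10 / 3 : ℝ)
        = (X.card : ℝ) * H ^ (2 + (4 / 3 + τ)) * H ^ (-τ) := by rw [h5]; ring
      _ ≤ (C₁ * R ^ (ε / 4) * A ^ (4 / 3 + τ) *
            R ^ (((2 : ℕ) : ℝ) * (4 / 3 + τ) / 2 - 1) * ∫ ζ, ‖G ζ‖ ^ 2) * A ^ (-τ) := by
          gcongr
      _ = C₁ * (R ^ (ε / 4) * R ^ (((2 : ℕ) : ℝ) * (4 / 3 + τ) / 2 - 1)) *
            (A ^ (4 / 3 + τ) * A ^ (-τ)) * ∫ ζ, ‖G ζ‖ ^ 2 := by ring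
      _ ≤ (C₁ + C₂) * (R ^ ε * R ^ (1 / 3 : ℝ)) * A ^ (4 / 3 : ℝ) * ∫ ζ, ‖G ζ‖ ^ 2 := by
          rw [h7]
          have : C₁ ≤ C₁ + C₂ := by linarith
          gcongr
      _ = (C₁ + C₂) * R ^ ε * A ^ (4 / 3 : ℝ) * R ^ (1 / 3 : ℝ) * ∫ ζ, ‖G ζ‖ ^ 2 := by ring

end Pool.Agent.H67.LB
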